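import Pool.Agent.Q210.TR.Prep
import Pool.Agent.Q237.TC.MIN

/-!
# Project TR (helper130), job CSP: case A with the idempotent `P`
-/

set_option autoImplicit false

namespace Pool.Agent.Q210.TR

open MeasureTheory Set Metric Filter Topology
open scoped InnerProductSpace ENNReal NNReal ComplexConjugate ContDiff
open Pool.Agent.Y283.NK (ct IsMul Repr fr)
open Pool.Agent.Y271.RO
open Pool.Agent.Q130.TC (nm Am VV S_CMA S_MIN S_VK S_DNS WT Inj)
open Pool.Agent.Q130.TR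
open Pool.Agent.Q169.TC (coord_le nm_nonneg nm_sq nm_congr nm_mul nm_integral WT.mono Am_mul)
open ContinuousLinearMap (adjoint)

/-- the inner products with `x - P† x` -/
lemma inner_diff {S : Type} [MeasurableSpace S] {μ : Measure S} [SigmaFinite μ] {φ : S → ℂ}
    {N : Lp ℂ 2 μ →L[ℂ] Lp ℂ 2 μ} (hN : IsMul φ N) (u : ℕ → Lp ℂ 2 μ) (m : ℕ) {ρ B : ℝ} {a : ℂ}
    (hρ : 0 < ρ) {g : ℂ → ℝ} (hgm : Measurable g) (hg : ∀ z, 0 ≤ g z ∧ g z ≤ B)
    (hgs : ∀ z, z ∉ ball a ρ → g z = 0) {c : ℕ → ℂ → ℂ} (hcm : ∀ i, Measurable (c i))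
    (hc1 : ∀ z, nm m (fun i => c i z) ≤ 1) (x x' : Lp ℂ 2 μ) (k : ℕ) {β : ℂ → ℝ}
    (hβi : Integrable β) (hβ : ∀ᵐ z, g z * ‖∑ i ∈ Finset.range m, c i z *
      (ct φ x (u i) z - ct φ x' (u i) z)‖ ≤ β z) :
    ‖⟪x, VV φ u m a g c k⟫_ℂ - ⟪x', VV φ u m a g c k⟫_ℂ‖ ≤ ρ ^ k * ∫ z, β z := by
  have hB0 : 0 ≤ B := (hg a).1.trans (hg a).2
  have hb : ∀ j < m, Bd (fun z => (z - a) ^ k * ((g z : ℂ) * c j z)) a ρ (ρ ^ k * B) := by
    intro j hj
    refine ⟨((measurable_id.sub_const a).pow_const k).mul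
      ((Complex.measurable_ofReal.comp hgm).mul (hcm j)), by positivity, ?_, ?_⟩
    · intro z
      by_cases hz : z ∈ ball a ρ
      · rw [mem_ball, dist_eq_norm] at hz
        rw [norm_mul, norm_pow]
        refine mul_le_mul (pow_le_pow_left₀ (norm_nonneg _) hz.le k) ?_ (norm_nonneg _)
          (by positivity)
        rw [norm_mul, Complex.norm_real, Real.norm_eq_abs, abs_of_nonneg (hg z).1]
        have h1 : ‖c j z‖ ≤ 1 := (coord_le (fun j => c j z) hj).trans (hc1 z)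
        calc g z * ‖c j z‖ ≤ B * 1 := mul_le_mul (hg z).2 h1 (norm_nonneg _) hB0
          _ = B := mul_one B
      · rw [hgs z hz]
        simp only [Complex.ofReal_zero, zero_mul, mul_zero, norm_zero]
        positivity
    · intro z hz
      show (z - a) ^ k * ((g z : ℂ) * c j z) = 0
      rw [hgs z hz]
      simp
  have h1 := Pool.Agent.Q237.TC.inner_Y hN u m hρ _ hb x
  have h2 := Pool.Agent.Q237.TC.inner_Y hN u m hρ _ hb x'
  have i1 : ∀ y : Lp ℂ 2 μ, ∀ j ∈ Finset.range m,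
      Integrable (fun z => (z - a) ^ k * ((g z : ℂ) * c j z) * ct φ y (u j) z) := fun y j hj =>
    ((Pool.Agent.Y108.RO.main S μ φ hN.meas y (u j)).2.2 a ρ _ _ (hb j (Finset.mem_range.1 hj))).1
  have h3 : ⟪x, VV φ u m a g c k⟫_ℂ - ⟪x', VV φ u m a g c k⟫_ℂ =
      ∫ z, ∑ j ∈ Finset.range m, ((z - a) ^ k * ((g z : ℂ) * c j z) * ct φ x (u j) z -
        (z - a) ^ k * ((g z : ℂ) * c j z) * ct φ x' (u j) z) := by
    have i2 : ∀ j ∈ Finset.range m, Integrable (fun z =>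
        (z - a) ^ k * ((g z : ℂ) * c j z) * ct φ x (u j) z -
        (z - a) ^ k * ((g z : ℂ) * c j z) * ct φ x' (u j) z) := fun j hj =>
      (i1 x j hj).sub (i1 x' j hj)
    unfold VV
    rw [h1, h2, integral_finsetSum _ i2, ← Finset.sum_sub_distrib]
    exact Finset.sum_congr rfl fun j hj => (integral_sub (i1 x j hj) (i1 x' j hj)).symm
  rw [h3, ← integral_const_mul]
  refine norm_integral_le_of_norm_le (hβi.const_mul _) ?_
  filter_upwards [hβ] with z hz
  have e : ∑ j ∈ Finset.range m, ((z - a) ^ k * ((g z : ℂ) * c j z) * ct φ x (u j) z -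
        (z - a) ^ k * ((g z : ℂ) * c j z) * ct φ x' (u j) z) =
      (z - a) ^ k * ((g z : ℂ) * ∑ i ∈ Finset.range m, c i z *
        (ct φ x (u i) z - ct φ x' (u i) z)) := by
    rw [Finset.mul_sum, Finset.mul_sum]
    exact Finset.sum_congr rfl fun j _ => by ring
  rw [e]
  by_cases hzb : z ∈ ball a ρ
  · rw [mem_ball, dist_eq_norm] at hzb
    rw [norm_mul, norm_pow, norm_mul, Complex.norm_real, Real.norm_eq_abs, abs_of_nonneg (hg z).1]
    exact mul_le_mul (pow_le_pow_left₀ (norm_nonneg _) hzb.le k) hz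
      (mul_nonneg (hg z).1 (norm_nonneg _)) (by positivity)
  · have h0 : 0 ≤ β z := le_trans (mul_nonneg (hg z).1 (norm_nonneg _)) hz
    rw [hgs z hzb]
    simp only [Complex.ofReal_zero, zero_mul, mul_zero, norm_zero]
    positivity

theorem csp (hL : S_L2B) (hH : S_HSB) (hS : S_SYS) (hWLP : S_WLP) (h2 : S_CMA) (h3 : S_MIN)
    (h4 : S_VK) (h5 : S_DNS) : S_CSP := by
  intro S _ μ _ φ N K hN u v hR hInj P hP hPT hsys w hwm hw hPA a ρ C c₀ l₀ B δ hρ hC hc₀ hlm₀
    hl0₀ hls₀ hlc₀ hlC₀ hδ0 hδ hWT₀ hwl₀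
  classical
  by_contra hno
  obtain ⟨hRu, hRv, -⟩ := id hR
  have hTRC := (Pool.Agent.Y77.NK.main_trc _ K u v hR).2.2.1
  obtain ⟨J, θ, δ₀, hθ, hδ₀, hCMA⟩ := h2 S μ φ hN.meas u v hRu hRv C (c₀ / 2) hC (by positivity)
  obtain ⟨C₁, hC₁, hMIN⟩ := h3
  set U₀ : ℝ := √(∑' j, ‖u j‖ ^ 2) with hU
  have hU0 : 0 ≤ U₀ := Real.sqrt_nonneg _
  have hUm : ∀ m, ∑ j ∈ Finset.range m, ‖u j‖ ^ 2 ≤ U₀ ^ 2 := by
    intro m
    rw [hU, Real.sq_sqrt (tsum_nonneg fun _ => by positivity)]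
    exact hRu.sum_le_tsum _ fun _ _ => by positivity
  -- the test vectors
  have hxj : ∀ j, ∃ x : Lp ℂ 2 μ, v j ≠ 0 → ∀ (m : ℕ) (y : ℕ → ℂ), j < m →
      ‖y j - ⟪x, ∑ i ∈ Finset.range m, y i • u i⟫_ℂ‖ ≤ θ ^ 2 / (8 * (C + 1)) * nm m y := by
    intro j
    by_cases hvj : v j = 0
    · exact ⟨0, fun h => absurd hvj h⟩
    · obtain ⟨x, hx⟩ := h5 _ u v hRu hInj j hvj (θ ^ 2 / (8 * (C + 1))) (by positivity)
      exact ⟨x, fun _ => hx⟩
  choose xs hxs using hxj
  set Xs : Finset (Lp ℂ 2 μ) := (Finset.range J).image xs ∪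
    (Finset.range J).image (fun j => adjoint N (xs j)) with hXs
  obtain ⟨m, c, E, b, hm12, hcm, hc1, hEm, hbm, hb0, hbi₀, hblim, hbE, hbP, hmass⟩ :=
    prep hL hH hS μ φ N K hN u v hR P hP hPT hsys w hwm hw hPA a ρ C c₀ l₀ B δ hC hc₀ hlm₀ hl0₀
      hls₀ hlc₀ hlC₀ hδ0 hδ hWT₀ hwl₀ Xs
  have hmt : Tendsto m atTop atTop := tendsto_atTop_mono (fun n => (hm12 n).2) tendsto_id
  have hli₀ : ∀ n, Integrable (l₀ n) := fun n => bi (hlm₀ n) (hl0₀ n) (hls₀ n)
  -- the densities on the good sets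
  set l : ℕ → ℂ → ℝ := fun n => (E n).indicator (l₀ n) with hl
  have hlm : ∀ n, Measurable (l n) := fun n => (hlm₀ n).indicator (hEm n)
  have hll : ∀ n z, l n z ≤ l₀ n z := fun n z =>
    indicator_le_self' (fun z _ => (hl0₀ n z).1) z
  have hl0 : ∀ n z, 0 ≤ l n z ∧ l n z ≤ B n := fun n z =>
    ⟨indicator_nonneg (fun z _ => (hl0₀ n z).1) z, (hll n z).trans (hl0₀ n z).2⟩
  have hls : ∀ n z, z ∉ ball a ρ → l n z = 0 := fun n z hz =>
    le_antisymm ((hll n z).trans_eq (hls₀ n z hz)) (hl0 n z).1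
  have hli : ∀ n, Integrable (l n) := fun n => bi (hlm n) (hl0 n) (hls n)
  have hlC : ∀ n, ∫ z, l n z ≤ C := fun n =>
    (integral_mono (hli n) (hli₀ n) (hll n)).trans (hlC₀ n)
  have hWT : ∀ n, WT (l n) C (δ n) := fun n =>
    WT.mono (hWT₀ n) (hli₀ n) (fun z => (hl0 n z).1) (hll n) le_rfl
  have hlE : ∀ n z, z ∉ E n → l n z = 0 := fun n z hz => indicator_of_notMem hz _
  set A : ℕ → ℝ := fun n => ∫ z, l₀ n z * b n z with hA
  have hAt : Tendsto A atTop (𝓝 0) := hblim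
  have hAmm : ∀ n, Measurable fun z => nm (m n) (Am φ u v (m n) z fun j => c n j z) := by
    intro n
    unfold nm
    refine Measurable.sqrt (Finset.measurable_sum _ fun i _ => (Measurable.norm ?_).pow_const 2)
    unfold Am
    refine (hcm n i).sub (Finset.measurable_sum _ fun j _ => Measurable.mul ?_ (hcm n j))
    exact (Pool.Agent.Y108.RO.main S μ φ hN.meas (v i) (u j)).1
  have hAp : ∀ n z, l n z * nm (m n) (Am φ u v (m n) z fun j => c n j z) ≤ l₀ n z * b n z := by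
    intro n z
    by_cases hz : z ∈ E n
    · exact mul_le_mul (hll n z) (hbE n z hz) (nm_nonneg _ _) (hl0₀ n z).1
    · rw [hlE n z hz, zero_mul]
      exact mul_nonneg (hl0₀ n z).1 (hb0 n z)
  have hAi : ∀ n, Integrable (fun z => l n z * nm (m n) (Am φ u v (m n) z fun j => c n j z)) ∧
      ∫ z, l n z * nm (m n) (Am φ u v (m n) z fun j => c n j z) ≤ A n := by
    intro n
    have e3 : ∀ z, 0 ≤ l n z * nm (m n) (Am φ u v (m n) z fun j => c n j z) := fun z =>
      mul_nonneg (hl0 n z).1 (nm_nonneg _ _)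
    have e4 : Integrable (fun z => l n z * nm (m n) (Am φ u v (m n) z fun j => c n j z)) := by
      refine (hbi₀ n).mono' ((hlm n).mul (hAmm n)).aestronglyMeasurable
        (Eventually.of_forall fun z => ?_)
      rw [Real.norm_eq_abs, abs_of_nonneg (e3 z)]
      exact hAp n z
    exact ⟨e4, integral_mono e4 (hbi₀ n) (hAp n)⟩
  -- the index `j`
  have hev : ∀ᶠ n in atTop, ∃ j ∈ Finset.range J, j < m n ∧ v j ≠ 0 ∧
      θ ≤ ∫ z in {z | θ ≤ ‖c n j z‖}, l n z := by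
    filter_upwards [hδ.eventually (ge_mem_nhds hδ₀), hAt.eventually (ge_mem_nhds hδ₀), hmass] with
      n e1 e2 e7
    obtain ⟨j, e3, e4, e5, e6⟩ := hCMA (l n) (m n) (c n) (hlm n) (fun z => (hl0 n z).1) (hli n)
      (WT.mono (hWT n) (hli n) (fun z => (hl0 n z).1) (fun z => le_rfl) e1) (hcm n)
      (fun z => hc1 n z) (hAi n).1 ((hAi n).2.trans e2) e7
    exact ⟨j, Finset.mem_range.2 e3, e4, e5, e6⟩
  obtain ⟨j, hjJ, hj⟩ : ∃ j, j < J ∧ ∃ᶠ n in atTop, j < m n ∧ v j ≠ 0 ∧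
      θ ≤ ∫ z in {z | θ ≤ ‖c n j z‖}, l n z := by
    by_contra hcon
    have e1 : ∀ j ∈ Finset.range J, ∀ᶠ n in atTop, ¬ (j < m n ∧ v j ≠ 0 ∧
        θ ≤ ∫ z in {z | θ ≤ ‖c n j z‖}, l n z) := fun j hj => by
      have := not_and.1 (not_exists.1 hcon j) (Finset.mem_range.1 hj)
      rwa [not_frequently] at this
    have e2 := (Filter.eventually_all_finset _).2 e1
    obtain ⟨n, e3, j, e4, e5⟩ := (e2.and hev).exists
    exact e3 j e4 e5
  have hj2 : ∃ᶠ n in atTop, (j < m n ∧ v j ≠ 0 ∧ θ ≤ ∫ z in {z | θ ≤ ‖c n j z‖}, l n z) ∧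
      C₁ * δ n ≤ θ := by
    refine hj.and_eventually ?_
    have e1 : Tendsto (fun n => C₁ * δ n) atTop (𝓝 0) := by
      have := hδ.const_mul C₁
      rwa [mul_zero] at this
    exact e1.eventually (ge_mem_nhds hθ)
  obtain ⟨s, hs, hsP⟩ := extraction_of_frequently_atTop hj2
  have hst : Tendsto s atTop atTop := hs.tendsto_atTop
  have hvj : v j ≠ 0 := (hsP 0).1.2.1
  -- the densities on the set where the component is large
  set G : ℕ → Set ℂ := fun n => {z | θ ≤ ‖c n j z‖} with hG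
  have hGm : ∀ n, MeasurableSet (G n) := fun n => measurableSet_le measurable_const (hcm n j).norm
  set p : ℕ → ℂ → ℂ := fun n z => conj (c n j z) / (‖c n j z‖ : ℂ) with hp
  have hpm : ∀ n, Measurable (p n) := fun n =>
    (Complex.continuous_conj.measurable.comp (hcm n j)).div
      (Complex.measurable_ofReal.comp (hcm n j).norm)
  have hp1 : ∀ n z, ‖p n z‖ ≤ 1 := by
    intro n z
    rw [hp]
    show ‖conj (c n j z) / (‖c n j z‖ : ℂ)‖ ≤ 1
    rw [norm_div, RCLike.norm_conj, Complex.norm_real, norm_norm]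
    exact div_self_le_one _
  have hpj : ∀ n z, p n z * c n j z = (‖c n j z‖ : ℂ) := by
    intro n z
    by_cases hz : c n j z = 0
    · rw [hz]; simp
    · have e1 : (‖c n j z‖ : ℂ) ≠ 0 := by
        rw [Complex.ofReal_ne_zero]
        exact norm_ne_zero_iff.2 hz
      show conj (c n j z) / (‖c n j z‖ : ℂ) * c n j z = (‖c n j z‖ : ℂ)
      rw [div_mul_eq_mul_div, div_eq_iff e1, mul_comm, Complex.mul_conj,
        Complex.normSq_eq_norm_sq]
      push_cast
      ring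
  have hc'm : ∀ n i, Measurable (fun z => p n z * c n i z) := fun n i => (hpm n).mul (hcm n i)
  have hc'1 : ∀ n z, nm (m n) (fun i => p n z * c n i z) ≤ 1 := by
    intro n z
    rw [nm_mul, hc1 n z, mul_one]
    exact hp1 n z
  have hg : ∀ n, ∃ g : ℂ → ℝ, Measurable g ∧ (∀ z, 0 ≤ g z ∧ g z ≤ (G (s n)).indicator (l (s n)) z) ∧
      θ / 2 ≤ ∫ z, g z ∧ ‖VV φ u (m (s n)) a g (fun i z => p (s n) z * c (s n) i z) 0‖ ≤
        C₁ * C * U₀ + 1 := by
    intro n
    set k := s n with hk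
    have e1 : ∀ z, 0 ≤ (G k).indicator (l k) z := fun z =>
      indicator_nonneg (fun z _ => (hl0 k z).1) z
    have e2 : ∀ z, (G k).indicator (l k) z ≤ l k z := fun z =>
      indicator_le_self' (fun z _ => (hl0 k z).1) z
    have e3 : θ ≤ ∫ z, (G k).indicator (l k) z := by
      rw [integral_indicator (hGm k)]
      exact (hsP n).1.2.2
    obtain ⟨g, g1, g2, g3, g4⟩ := hMIN S μ φ N hN u (m k) U₀ hU0 (hUm (m k))
      ((G k).indicator (l k)) C (δ k) ρ (B k) a ((hlm k).indicator (hGm k))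
      (fun z => ⟨e1 z, (e2 z).trans (hl0 k z).2⟩)
      (fun z hz => le_antisymm ((e2 z).trans_eq (hls k z hz)) (e1 z)) hC (hδ0 k)
      (WT.mono (hWT k) (hli k) e1 e2 le_rfl) ((hsP n).2.trans e3)
      (fun i z => p k z * c k i z) (hc'm k) (hc'1 k)
    exact ⟨g, g1, g2, by linarith, g4⟩
  choose g hg1 hg2 hg3 hg4 using hg
  have hgl : ∀ n z, g n z ≤ l (s n) z := fun n z => ((hg2 n z).2).trans
    (indicator_le_self' (fun z _ => (hl0 (s n) z).1) z)
  have hgs : ∀ n z, z ∉ ball a ρ → g n z = 0 := fun n z hz =>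
    le_antisymm ((hgl n z).trans_eq (hls (s n) z hz)) (hg2 n z).1
  have hgE : ∀ n z, z ∉ E (s n) → g n z = 0 := fun n z hz =>
    le_antisymm ((hgl n z).trans_eq (hlE (s n) z hz)) (hg2 n z).1
  have hgi : ∀ n, Integrable (g n) := fun n => bi (hg1 n)
    (fun z => ⟨(hg2 n z).1, (hgl n z).trans (hl0 (s n) z).2⟩) (hgs n)
  have hgC : ∀ n, ∫ z, g n z ≤ C := fun n =>
    (integral_mono (hgi n) (hli (s n)) (hgl n)).trans (hlC (s n))
  have hg0 : ∀ n, 0 ≤ ∫ z, g n z := fun n => integral_nonneg fun z => (hg2 n z).1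
  -- the vectors
  set c' : ℕ → ℕ → ℂ → ℂ := fun n i z => p (s n) z * c (s n) i z with hc'
  set X : ℕ → ℕ → Lp ℂ 2 μ := fun n k => VV φ u (m (s n)) a (g n) (c' n) k with hX
  have hVK := fun n => h4 S μ φ N hN u v (m (s n)) U₀ hU0 (hUm _) (g n) ρ (B (s n)) a hρ (hg1 n)
    (fun z => ⟨(hg2 n z).1, (hgl n z).trans (hl0 (s n) z).2⟩) (hgs n) (c' n)
    (fun i => hc'm (s n) i) (fun z => hc'1 (s n) z)
  set C' : ℝ := C₁ * C * U₀ + 1 + 2 * C * U₀ / ρ with hC'
  have hC'0 : 0 ≤ C' := by positivity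
  have hXb : ∀ n k, ‖X n k‖ ≤ C' * (4 * ρ) ^ k := by
    intro n k
    refine ((hVK n).1 k).trans (mul_le_mul_of_nonneg_right ?_ (by positivity))
    refine add_le_add (hg4 n) ?_
    have := hgC n
    gcongr
  have hfr : ∀ k, Tendsto (fun n => (N + fr u v (m (s n))) (X n k) - a • X n k - X n (k + 1)) atTop
      (𝓝 0) := by
    intro k
    have e1 : Tendsto (fun n => U₀ * ρ ^ k * A (s n)) atTop (𝓝 0) := by
      have := (hAt.comp hst).const_mul (U₀ * ρ ^ k)
      rwa [mul_zero] at this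
    refine squeeze_zero_norm (fun n => ?_) e1
    refine ((hVK n).2.2.1 k).trans (mul_le_mul_of_nonneg_left ?_ (by positivity))
    refine le_trans ?_ (hAi (s n)).2
    have e2 : ∀ z, g n z * nm (m (s n)) (Am φ u v (m (s n)) z fun j => c' n j z) ≤
        l (s n) z * nm (m (s n)) (Am φ u v (m (s n)) z fun j => c (s n) j z) := by
      intro z
      have e3 : nm (m (s n)) (Am φ u v (m (s n)) z fun j => c' n j z) =
          ‖p (s n) z‖ * nm (m (s n)) (Am φ u v (m (s n)) z fun j => c (s n) j z) := by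
        rw [← nm_mul]
        exact nm_congr fun i _ => Am_mul _ _ _ _ _ _ _ _
      rw [e3]
      refine mul_le_mul (hgl n z) ?_ (mul_nonneg (norm_nonneg _) (nm_nonneg _ _)) (hl0 (s n) z).1
      exact mul_le_of_le_one_left (nm_nonneg _ _) (hp1 (s n) z)
    exact integral_mono_of_nonneg (Eventually.of_forall fun z =>
      mul_nonneg (hg2 n z).1 (nm_nonneg _ _)) (hAi (s n)).1 (Eventually.of_forall e2)
  have hfin : ∀ k, Tendsto (fun n => (K - fr u v (m (s n))) (X n k)) atTop (𝓝 0) := by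
    intro k
    have e2 : Tendsto (fun n => K - fr u v (m (s n))) atTop (𝓝 0) := by
      have e3 := (hTRC.comp (hmt.comp hst)).const_sub K
      rwa [sub_self] at e3
    have e4 : Tendsto (fun n => ‖K - fr u v (m (s n))‖ * (C' * (4 * ρ) ^ k)) atTop (𝓝 0) := by
      have e5 := e2.norm.mul_const (C' * (4 * ρ) ^ k)
      rwa [norm_zero, zero_mul] at e5
    refine squeeze_zero_norm (fun n => ?_) e4
    exact (ContinuousLinearMap.le_opNorm _ _).trans
      (mul_le_mul_of_nonneg_left (hXb n k) (norm_nonneg _))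
  have hlim : ∀ k, Tendsto (fun n => (N + K) (X n k) - a • X n k - X n (k + 1)) atTop (𝓝 0) := by
    intro k
    have e1 := (hfr k).add (hfin k)
    rw [add_zero] at e1
    refine e1.congr fun n => ?_
    simp only [_root_.add_apply, _root_.sub_apply]
    abel
  -- no component in the range of `P`
  have hP0 : ∀ x : Lp ℂ 2 μ, Tendsto (fun n => ⟪x, P (X n 0)⟫_ℂ) atTop (𝓝 0) :=
    hWLP _ (N + K) P a (4 * ρ) C' X (by positivity) hP hPT hXb hlim hno
  have hP1 : ∀ x : Lp ℂ 2 μ, Tendsto (fun n => ⟪x, P (X n 1)⟫_ℂ) atTop (𝓝 0) :=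
    hWLP _ (N + K) P a (4 * ρ) (C' * (4 * ρ)) (fun n k => X n (k + 1)) (by positivity) hP hPT
      (fun n k => (hXb n (k + 1)).trans_eq (by ring)) (fun k => hlim (k + 1)) hno
  have hdiff : ∀ x ∈ Xs, ∀ k, Tendsto (fun n => ⟪x, X n k⟫_ℂ - ⟪x, P (X n k)⟫_ℂ) atTop (𝓝 0) := by
    intro x hx k
    have e1 : Tendsto (fun n => ρ ^ k * A (s n)) atTop (𝓝 0) := by
      have := (hAt.comp hst).const_mul (ρ ^ k)
      rwa [mul_zero] at this
    refine squeeze_zero_norm (fun n => ?_) e1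
    rw [← ContinuousLinearMap.adjoint_inner_left]
    refine inner_diff hN u (m (s n)) (B := B (s n)) hρ (hg1 n)
      (fun z => ⟨(hg2 n z).1, (hgl n z).trans (hl0 (s n) z).2⟩) (hgs n)
      (fun i => hc'm (s n) i) (fun z => hc'1 (s n) z) x (adjoint P x) k (hbi₀ (s n)) ?_
    filter_upwards [hbP x hx] with z hz
    by_cases hzE : z ∈ E (s n)
    · have e2 := hz (s n) hzE (p (s n) z) (hp1 (s n) z)
      exact mul_le_mul ((hgl n z).trans (hll (s n) z)) e2 (norm_nonneg _) (hl0₀ (s n) z).1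
    · rw [hgE n z hzE, zero_mul]
      exact mul_nonneg (hl0₀ (s n) z).1 (hb0 (s n) z)
  have hw0 : ∀ x ∈ Xs, Tendsto (fun n => ⟪x, X n 0⟫_ℂ) atTop (𝓝 0) := by
    intro x hx
    have e1 := (hdiff x hx 0).add (hP0 x)
    rw [add_zero] at e1
    refine e1.congr fun n => ?_
    ring
  have hw1 : ∀ x ∈ Xs, Tendsto (fun n => ⟪x, X n 1⟫_ℂ) atTop (𝓝 0) := by
    intro x hx
    have e1 := (hdiff x hx 1).add (hP1 x)
    rw [add_zero] at e1
    refine e1.congr fun n => ?_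
    ring
  -- the coordinates
  set y : ℕ → ℕ → ℂ := fun n i => ∫ z, (g n z : ℂ) * c' n i z with hy
  have hyn : ∀ n, nm (m (s n)) (y n) ≤ C := fun n =>
    (nm_integral (m (s n)) (g n) (c' n) (hgi n) (fun z => (hg2 n z).1) (hg1 n)
      (fun i => hc'm (s n) i) (fun z => hc'1 (s n) z)).2.trans (hgC n)
  have hyj : ∀ n, θ ^ 2 / 2 ≤ ‖y n j‖ := by
    intro n
    have e1 : y n j = ((∫ z, g n z * ‖c (s n) j z‖ : ℝ) : ℂ) := by
      rw [← integral_complex_ofReal]
      refine integral_congr_ae (Eventually.of_forall fun z => ?_)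
      show (g n z : ℂ) * (p (s n) z * c (s n) j z) = ((g n z * ‖c (s n) j z‖ : ℝ) : ℂ)
      rw [hpj]
      push_cast
      rfl
    have e2 : Integrable (fun z => g n z * ‖c (s n) j z‖) := by
      refine (hgi n).mono' ((hg1 n).mul (hcm (s n) j).norm).aestronglyMeasurable
        (Eventually.of_forall fun z => ?_)
      rw [norm_mul, norm_norm, Real.norm_eq_abs, abs_of_nonneg (hg2 n z).1]
      refine mul_le_of_le_one_right (hg2 n z).1 ?_
      exact (coord_le (fun i => c (s n) i z) (hsP n).1.1).trans_eq (hc1 (s n) z)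
    have e3 : θ * (θ / 2) ≤ ∫ z, g n z * ‖c (s n) j z‖ := by
      calc θ * (θ / 2) ≤ θ * ∫ z, g n z := mul_le_mul_of_nonneg_left (hg3 n) hθ.le
        _ = ∫ z, θ * g n z := (integral_const_mul _ _).symm
        _ ≤ ∫ z, g n z * ‖c (s n) j z‖ := by
            refine integral_mono ((hgi n).const_mul θ) e2 fun z => ?_
            show θ * g n z ≤ g n z * ‖c (s n) j z‖
            by_cases hz : z ∈ G (s n)
            · rw [mul_comm]
              exact mul_le_mul_of_nonneg_left hz (hg2 n z).1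
            · have e4 := (hg2 n z).2
              rw [indicator_of_notMem hz] at e4
              have e5 : g n z = 0 := le_antisymm e4 (hg2 n z).1
              rw [e5]
              simp
    rw [e1, Complex.norm_real, Real.norm_eq_abs]
    refine le_trans ?_ (le_abs_self _)
    linarith [e3, sq θ]
  have hysum : ∀ n, ∑ i ∈ Finset.range (m (s n)), y n i • u i =
      X n 1 - (N (X n 0) - a • X n 0) := by
    intro n
    have e1 := (hVK n).2.1 0
    have e2 : ∀ i, (∫ z, (z - a) ^ 0 * ((g n z : ℂ) * c' n i z)) = y n i := by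
      intro i
      simp only [pow_zero, one_mul]
      rfl
    simp_rw [e2] at e1
    show _ = VV φ u (m (s n)) a (g n) (c' n) (0 + 1) - (N (VV φ u (m (s n)) a (g n) (c' n) 0) -
      a • VV φ u (m (s n)) a (g n) (c' n) 0)
    rw [e1]
    abel
  have hx1 : xs j ∈ Xs := Finset.mem_union_left _ (Finset.mem_image_of_mem _ (Finset.mem_range.2 hjJ))
  have hx2 : adjoint N (xs j) ∈ Xs := Finset.mem_union_right _
    (Finset.mem_image_of_mem (fun j => adjoint N (xs j)) (Finset.mem_range.2 hjJ))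
  have hx := hxs j hvj
  have hlimy : Tendsto (fun n => ⟪xs j, ∑ i ∈ Finset.range (m (s n)), y n i • u i⟫_ℂ) atTop
      (𝓝 0) := by
    have e1 := ((hw1 _ hx1).sub ((hw0 _ hx2).sub ((hw0 _ hx1).const_mul a)))
    simp only [mul_zero, sub_zero] at e1
    refine e1.congr fun n => ?_
    rw [hysum n, inner_sub_right, inner_sub_right, inner_smul_right,
      ContinuousLinearMap.adjoint_inner_left]
  have hfinal : ∀ᶠ n in atTop, ‖⟪xs j, ∑ i ∈ Finset.range (m (s n)), y n i • u i⟫_ℂ‖ < θ ^ 2 / 8 := by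
    have e1 := hlimy.norm
    rw [norm_zero] at e1
    exact e1.eventually (gt_mem_nhds (by positivity))
  obtain ⟨n, hn⟩ := hfinal.exists
  have e1 := hx (m (s n)) (y n) (hsP n).1.1
  have e2 : ‖y n j‖ ≤ ‖y n j - ⟪xs j, ∑ i ∈ Finset.range (m (s n)), y n i • u i⟫_ℂ‖ +
      ‖⟪xs j, ∑ i ∈ Finset.range (m (s n)), y n i • u i⟫_ℂ‖ := by
    have := norm_add_le (y n j - ⟪xs j, ∑ i ∈ Finset.range (m (s n)), y n i • u i⟫_ℂ)
      (⟪xs j, ∑ i ∈ Finset.range (m (s n)), y n i • u i⟫_ℂ)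
    rwa [sub_add_cancel] at this
  have e3 : θ ^ 2 / (8 * (C + 1)) * nm (m (s n)) (y n) ≤ θ ^ 2 / 8 := by
    calc θ ^ 2 / (8 * (C + 1)) * nm (m (s n)) (y n) ≤ θ ^ 2 / (8 * (C + 1)) * (C + 1) :=
          mul_le_mul_of_nonneg_left ((hyn n).trans (by linarith)) (by positivity)
      _ = θ ^ 2 / 8 := by field_simp
  have e4 := hyj n
  nlinarith [sq_pos_of_pos hθ]

end Pool.Agent.Q210.TR
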