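import Pool.Agent.Q286.TR.Stm

/-!
# The trace coefficients of an Euler product over a number field
-/

set_option autoImplicit false

namespace Pool.Agent.Q210.TR

open Complex Filter Topology NumberField IsDedekindDomain
open Pool.Agent.Q286.TR

section norm

variable {K : Type} [Field K] [NumberField K]

/-- the norm of a finite place is a prime power -/
theorem norm_pp (v : HeightOneSpectrum (𝓞 K)) : IsPrimePow (Ideal.absNorm v.asIdeal) := by
  have h1 : Finite (𝓞 K ⧸ v.asIdeal) := Ideal.finiteQuotientOfFreeOfNeBot v.asIdeal v.ne_bot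
  have h2 : v.asIdeal.IsMaximal := v.isMaximal
  let _ := Ideal.Quotient.field v.asIdeal
  have := Fintype.ofFinite (𝓞 K ⧸ v.asIdeal)
  rw [Ideal.absNorm_apply, Submodule.cardQuot_apply]
  have h3 := FiniteField.isPrimePow_card (𝓞 K ⧸ v.asIdeal)
  rw [← Nat.card_eq_fintype_card] at h3
  exact h3

/-- the prime is in the place -/
theorem mem_of_norm (v : HeightOneSpectrum (𝓞 K)) (p f : ℕ)
    (h : Ideal.absNorm v.asIdeal = p ^ f) : v.asIdeal ∣ Ideal.span {(p : 𝓞 K)} := by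
  rw [Ideal.dvd_span_singleton]
  have h1 := Ideal.absNorm_mem v.asIdeal
  rw [h, Nat.cast_pow] at h1
  exact v.isPrime.mem_of_pow_mem f h1

theorem norm_span (p : ℕ) :
    Ideal.absNorm (Ideal.span {(p : 𝓞 K)}) = p ^ Module.finrank ℚ K := by
  have h1 : (p : 𝓞 K) = algebraMap ℤ (𝓞 K) (p : ℤ) := by simp
  rw [Ideal.absNorm_span_singleton, h1, Algebra.norm_algebraMap, RingOfIntegers.rank,
    Int.natAbs_pow, Int.natAbs_natCast]

/-- the sum of the exponents of the norms of the places over a prime -/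
theorem sum_inertia (p : ℕ) (hp : p.Prime) (F : Finset (HeightOneSpectrum (𝓞 K)))
    (f : HeightOneSpectrum (𝓞 K) → ℕ) (h : ∀ v ∈ F, Ideal.absNorm v.asIdeal = p ^ f v) :
    ∑ v ∈ F, f v ≤ Module.finrank ℚ K := by
  have h1 : ∏ v ∈ F, v.asIdeal ∣ Ideal.span {(p : 𝓞 K)} := by
    refine Finset.prod_dvd_of_coprime ?_ fun v hv => mem_of_norm v p (f v) (h v hv)
    intro v _ w _ hvw
    show IsCoprime v.asIdeal w.asIdeal
    rw [Ideal.isCoprime_iff_sup_eq]
    refine Ideal.IsMaximal.coprime_of_ne v.isMaximal w.isMaximal fun he => hvw ?_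
    exact HeightOneSpectrum.ext he
  have h2 := Ideal.absNorm_dvd_absNorm_of_le (Ideal.le_of_dvd h1)
  rw [norm_span, map_prod, Finset.prod_congr rfl h, Finset.prod_pow_eq_pow_sum] at h2
  exact (Nat.pow_dvd_pow_iff_le_right hp.one_lt).1 h2

end norm

theorem sqrt_pow' (x : ℝ) (hx : 0 ≤ x) (k : ℕ) : Real.sqrt x ^ k = Real.sqrt (x ^ k) := by
  symm
  rw [Real.sqrt_eq_iff_mul_self_eq (pow_nonneg hx k) (pow_nonneg (Real.sqrt_nonneg x) k),
    ← mul_pow, Real.mul_self_sqrt hx]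

open scoped Classical in
/-- JOB NRM -/
theorem t_NRM : S_NRM := by
  intro K _ _ D β hβ n
  have hR : 0 ≤ (D : ℝ) * Module.finrank ℚ K * Real.sqrt n * ArithmeticFunction.vonMangoldt n := by
    have := ArithmeticFunction.vonMangoldt_nonneg (n := n)
    positivity
  by_cases hne : (Pr (fun v : HeightOneSpectrum (𝓞 K) => Ideal.absNorm v.asIdeal) n).Nonempty
  swap
  · rw [Set.not_nonempty_iff_eq_empty] at hne
    unfold Th
    rw [hne, finsum_mem_empty, norm_zero]
    exact hR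
  obtain ⟨⟨v₀, k₀⟩, hk₀, hn₀⟩ := hne
  have hk₀ : 1 ≤ k₀ := hk₀
  have hn₀ : Ideal.absNorm v₀.asIdeal ^ k₀ = n := hn₀
  obtain ⟨p, f₀, hp, hf₀, hpf⟩ := norm_pp v₀
  have hp : p.Prime := Nat.prime_iff.2 hp
  obtain ⟨a, ha, hna⟩ : ∃ a : ℕ, a ≠ 0 ∧ n = p ^ a := by
    refine ⟨f₀ * k₀, (Nat.mul_pos hf₀ hk₀).ne', ?_⟩
    rw [← hn₀, ← hpf, pow_mul]
  -- the exponents
  have hex : ∀ v : HeightOneSpectrum (𝓞 K), ∀ k : ℕ, 1 ≤ k → Ideal.absNorm v.asIdeal ^ k = n →
      ∃ f : ℕ, Ideal.absNorm v.asIdeal = p ^ f ∧ f * k = a := by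
    intro v k hk hv
    have h1 : Ideal.absNorm v.asIdeal ∣ p ^ a := by
      rw [← hna, ← hv]
      exact dvd_pow_self _ (by omega)
    obtain ⟨f, -, hf⟩ := (Nat.dvd_prime_pow hp).1 h1
    refine ⟨f, hf, ?_⟩
    rw [hf, hna, ← pow_mul] at hv
    exact Nat.pow_right_injective hp.two_le hv
  let f : HeightOneSpectrum (𝓞 K) → ℕ := fun v =>
    if h : ∃ f : ℕ, Ideal.absNorm v.asIdeal = p ^ f then h.choose else 0
  have hf : ∀ v : HeightOneSpectrum (𝓞 K), (∃ f : ℕ, Ideal.absNorm v.asIdeal = p ^ f) →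
      Ideal.absNorm v.asIdeal = p ^ f v := by
    intro v h
    have h1 : f v = h.choose := dif_pos h
    rw [h1]
    exact h.choose_spec
  have hfin : (Pr (fun v : HeightOneSpectrum (𝓞 K) => Ideal.absNorm v.asIdeal) n).Finite := by
    have h1 : {v : HeightOneSpectrum (𝓞 K) | v.asIdeal ∣ Ideal.span {(p : 𝓞 K)}}.Finite := by
      apply Ideal.finite_factors
      rw [Ne, Ideal.zero_eq_bot, Ideal.span_singleton_eq_bot]
      exact Nat.cast_ne_zero.2 hp.ne_zero
    refine (h1.prod (Set.finite_Iic a)).subset ?_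
    rintro ⟨v, k⟩ ⟨hk, hv⟩
    obtain ⟨g, hg, hgk⟩ := hex v k hk hv
    refine ⟨mem_of_norm v p g hg, ?_⟩
    show k ≤ a
    rw [← hgk]
    have hg0 : g ≠ 0 := by
      rintro rfl
      rw [zero_mul] at hgk
      exact ha hgk.symm
    exact Nat.le_mul_of_pos_left k (Nat.pos_of_ne_zero hg0)
  unfold Th
  rw [finsum_mem_eq_finite_toFinset_sum _ hfin]
  have hmem : ∀ x ∈ hfin.toFinset, 1 ≤ x.2 ∧ Ideal.absNorm x.1.asIdeal ^ x.2 = n :=
    fun x hx => (Set.Finite.mem_toFinset hfin).1 hx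
  have hfx : ∀ x ∈ hfin.toFinset, Ideal.absNorm x.1.asIdeal = p ^ f x.1 ∧ f x.1 * x.2 = a := by
    intro x hx
    obtain ⟨h1, h2⟩ := hmem x hx
    obtain ⟨g, hg, -⟩ := hex x.1 x.2 h1 h2
    have h3 := hf x.1 ⟨g, hg⟩
    refine ⟨h3, ?_⟩
    rw [h3, hna, ← pow_mul] at h2
    exact Nat.pow_right_injective hp.two_le h2
  -- the number of the pairs
  have hsum : ∑ x ∈ hfin.toFinset, f x.1 ≤ Module.finrank ℚ K := by
    have h1 : Set.InjOn (Prod.fst : HeightOneSpectrum (𝓞 K) × ℕ → HeightOneSpectrum (𝓞 K))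
        (hfin.toFinset : Set (HeightOneSpectrum (𝓞 K) × ℕ)) := by
      intro x hx y hy hxy
      have h2 := (hfx x hx).2
      have h3 := (hfx y hy).2
      have hxy : x.1 = y.1 := hxy
      rw [hxy] at h2
      have h4 : f y.1 ≠ 0 := by
        intro h0
        rw [h0, zero_mul] at h3
        exact ha h3.symm
      exact Prod.ext hxy (Nat.eq_of_mul_eq_mul_left (Nat.pos_of_ne_zero h4) (h2.trans h3.symm))
    rw [← Finset.sum_image (f := f) (g := Prod.fst) h1]
    refine sum_inertia p hp _ f fun v hv => ?_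
    obtain ⟨x, hx, rfl⟩ := Finset.mem_image.1 hv
    exact (hfx x hx).1
  have hlog : ArithmeticFunction.vonMangoldt n = Real.log p := by
    rw [hna, ArithmeticFunction.vonMangoldt_apply_pow ha,
      ArithmeticFunction.vonMangoldt_apply_prime hp]
  have hlp : 0 ≤ Real.log p := Real.log_natCast_nonneg p
  have hterm : ∀ x ∈ hfin.toFinset,
      ‖((Real.log (Ideal.absNorm x.1.asIdeal) : ℝ) : ℂ) * ∑ j, β x.1 j ^ x.2‖ ≤
        (f x.1 : ℝ) * (Real.log p * (D * Real.sqrt n)) := by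
    intro x hx
    rw [norm_mul, Complex.norm_real, Real.norm_eq_abs,
      abs_of_nonneg (Real.log_natCast_nonneg _), (hfx x hx).1, Nat.cast_pow, Real.log_pow, mul_assoc]
    refine mul_le_mul_of_nonneg_left (mul_le_mul_of_nonneg_left ?_ hlp) (Nat.cast_nonneg _)
    have h1 : ∀ j, ‖β x.1 j ^ x.2‖ ≤ Real.sqrt n := by
      intro j
      rw [norm_pow]
      refine (pow_le_pow_left₀ (norm_nonneg _) (hβ x.1 j) x.2).trans ?_
      rw [sqrt_pow' _ (Nat.cast_nonneg _), ← Nat.cast_pow, (hmem x hx).2]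
    refine (norm_sum_le _ _).trans ?_
    refine (Finset.sum_le_sum fun j _ => h1 j).trans ?_
    rw [Finset.sum_const, Finset.card_univ, Fintype.card_fin, nsmul_eq_mul]
  refine (norm_sum_le _ _).trans ((Finset.sum_le_sum hterm).trans ?_)
  rw [← Finset.sum_mul, hlog, ← Nat.cast_sum]
  have h1 : ((∑ x ∈ hfin.toFinset, f x.1 : ℕ) : ℝ) ≤ (Module.finrank ℚ K : ℝ) :=
    Nat.cast_le.2 hsum
  have h2 : 0 ≤ Real.log p * (D * Real.sqrt n) := by positivity
  calc ((∑ x ∈ hfin.toFinset, f x.1 : ℕ) : ℝ) * (Real.log p * (D * Real.sqrt n)) ≤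
        (Module.finrank ℚ K : ℝ) * (Real.log p * (D * Real.sqrt n)) :=
        mul_le_mul_of_nonneg_right h1 h2
    _ = D * Module.finrank ℚ K * Real.sqrt n * Real.log p := by ring

end Pool.Agent.Q210.TR
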