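import Pool.Agent.Q210.TR.Seq

/-!
# Project TR (helper130), job CSP: the approximate kernel vectors and the sets on which they are good
-/

set_option autoImplicit false

namespace Pool.Agent.Q210.TR

open MeasureTheory Set Metric Filter Topology
open scoped InnerProductSpace ENNReal NNReal ComplexConjugate ContDiff
open Pool.Agent.Y283.NK (ct IsMul Repr fr)
open Pool.Agent.Q130.TC (nm Am WT)
open Pool.Agent.Q130.TR
open Pool.Agent.Q169.TC (coord_le nm_nonneg nm_sq nm_congr nm_mul)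
open ContinuousLinearMap (adjoint)

lemma bi {a : ℂ} {ρ : ℝ} {f : ℂ → ℝ} {M : ℝ} (hf : Measurable f) (h : ∀ z, 0 ≤ f z ∧ f z ≤ M)
    (hs : ∀ z, z ∉ ball a ρ → f z = 0) : Integrable f := by
  have e1 : f = (ball a ρ).indicator f := by
    funext z
    by_cases hz : z ∈ ball a ρ
    · rw [indicator_of_mem hz]
    · rw [indicator_of_notMem hz, hs z hz]
  rw [e1, integrable_indicator_iff measurableSet_ball]
  refine Measure.integrableOn_of_bounded (M := M) measure_ball_lt_top.ne hf.aestronglyMeasurable ?_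
  exact Eventually.of_forall fun z => by
    rw [Real.norm_eq_abs, abs_of_nonneg (h z).1]
    exact (h z).2

lemma bmul {a : ℂ} {ρ : ℝ} {f g : ℂ → ℝ} {M : ℝ} (hf : Measurable f) (h : ∀ z, 0 ≤ f z ∧ f z ≤ M)
    (hs : ∀ z, z ∉ ball a ρ → f z = 0) (hg : IntegrableOn g (ball a ρ)) (hgm : Measurable g)
    (hg0 : ∀ z, 0 ≤ g z) :
    Integrable (fun z => f z * g z) ∧ ∫ z, f z * g z ≤ M * ∫ z in ball a ρ, g z := by
  have e1 : (fun z => f z * g z) = (ball a ρ).indicator (fun z => f z * g z) := by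
    funext z
    by_cases hz : z ∈ ball a ρ
    · rw [indicator_of_mem hz]
    · rw [indicator_of_notMem hz, hs z hz, zero_mul]
  have e2 : IntegrableOn (fun z => f z * g z) (ball a ρ) := by
    refine (hg.norm.const_mul M).mono' (hf.mul hgm).aestronglyMeasurable
      (Eventually.of_forall fun z => ?_)
    rw [norm_mul, Real.norm_eq_abs (f z), abs_of_nonneg (h z).1]
    exact mul_le_mul_of_nonneg_right (h z).2 (norm_nonneg _)
  constructor
  · rw [e1, integrable_indicator_iff measurableSet_ball]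
    exact e2
  · rw [e1, integral_indicator measurableSet_ball, ← integral_const_mul]
    exact integral_mono e2 (hg.const_mul M) fun z => mul_le_mul_of_nonneg_right (h z).2 (hg0 z)

lemma int6 {f1 f2 f3 f4 f5 f6 : ℂ → ℝ} (h1 : Integrable f1) (h2 : Integrable f2) (h3 : Integrable f3)
    (h4 : Integrable f4) (h5 : Integrable f5) (h6 : Integrable f6) :
    ∫ z, (f1 z + f2 z + f3 z + f4 z + f5 z + f6 z) = (∫ z, f1 z) + (∫ z, f2 z) + (∫ z, f3 z) +
      (∫ z, f4 z) + (∫ z, f5 z) + ∫ z, f6 z := by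
  have a1 : ∫ z, (f1 z + f2 z) = (∫ z, f1 z) + ∫ z, f2 z := integral_add h1 h2
  have a2 : ∫ z, (f1 z + f2 z + f3 z) = (∫ z, (f1 z + f2 z)) + ∫ z, f3 z :=
    integral_add (h1.add h2) h3
  have a3 : ∫ z, (f1 z + f2 z + f3 z + f4 z) = (∫ z, (f1 z + f2 z + f3 z)) + ∫ z, f4 z :=
    integral_add ((h1.add h2).add h3) h4
  have a4 : ∫ z, (f1 z + f2 z + f3 z + f4 z + f5 z) =
      (∫ z, (f1 z + f2 z + f3 z + f4 z)) + ∫ z, f5 z :=
    integral_add (((h1.add h2).add h3).add h4) h5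
  have a5 : ∫ z, (f1 z + f2 z + f3 z + f4 z + f5 z + f6 z) =
      (∫ z, (f1 z + f2 z + f3 z + f4 z + f5 z)) + ∫ z, f6 z :=
    integral_add ((((h1.add h2).add h3).add h4).add h5) h6
  rw [a5, a4, a3, a2, a1]

/-- the union bound at a point -/
lemma union_bound {ι : Type} (Xs : Finset ι) (A B : ι → ℝ) (hA : ∀ x, 0 ≤ A x) (hB : ∀ x, 0 ≤ B x)
    {L e w g h q : ℝ} (he : 0 ≤ e) (hw : 0 ≤ w) (hg : 0 ≤ g) (hh : 0 ≤ h) (hq : 0 ≤ q)
    (H : L ≤ e ∨ L ≤ w ∨ L ≤ g ∨ L ≤ h ∨ (∃ x ∈ Xs, L ≤ A x ∨ L ≤ B x) ∨ L ≤ q) :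
    L ≤ e + w + g + h + (∑ x ∈ Xs, (A x + B x)) + q := by
  have hs : 0 ≤ ∑ x ∈ Xs, (A x + B x) := Finset.sum_nonneg fun x _ => add_nonneg (hA x) (hB x)
  rcases H with H | H | H | H | ⟨x, hx, H⟩ | H
  · linarith
  · linarith
  · linarith
  · linarith
  · have h1 : A x + B x ≤ ∑ x ∈ Xs, (A x + B x) :=
      Finset.single_le_sum (f := fun x => A x + B x) (fun x _ => add_nonneg (hA x) (hB x)) hx
    have h2 := hA x
    have h3 := hB x
    rcases H with H | H <;> linarith
  · linarith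

theorem prep (hL : S_L2B) (hH : S_HSB) (hS : S_SYS) {S : Type} [MeasurableSpace S]
    (μ : Measure S) [SigmaFinite μ] (φ : S → ℂ) (N K : Lp ℂ 2 μ →L[ℂ] Lp ℂ 2 μ) (hN : IsMul φ N)
    (u v : ℕ → Lp ℂ 2 μ) (hR : Repr K u v) (P : Lp ℂ 2 μ →L[ℂ] Lp ℂ 2 μ) (hP : P * P = P)
    (hPT : P * (N + K) = (N + K) * P) (hsys : ∀ᵐ z, SysP φ u v P z) (w : ℂ → ℝ)
    (hwm : Measurable w) (hw : ∀ z, 0 ≤ w z ∧ w z ≤ 1) (hPA : PA φ u v P w)
    (a : ℂ) (ρ C c₀ : ℝ) (l : ℕ → ℂ → ℝ) (B δ : ℕ → ℝ)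
    (hC : 0 < C) (hc₀ : 0 < c₀) (hlm : ∀ n, Measurable (l n)) (hl0 : ∀ n z, 0 ≤ l n z ∧ l n z ≤ B n)
    (hls : ∀ n z, z ∉ ball a ρ → l n z = 0) (hlc : ∀ n, c₀ ≤ ∫ z, l n z)
    (hlC : ∀ n, ∫ z, l n z ≤ C) (hδ0 : ∀ n, 0 ≤ δ n) (hδ : Tendsto δ atTop (𝓝 0))
    (hWT : ∀ n, WT (l n) C (δ n)) (hwl : Tendsto (fun n => ∫ z, w z * l n z) atTop (𝓝 0))
    (Xs : Finset (Lp ℂ 2 μ)) :
    ∃ (m : ℕ → ℕ) (c : ℕ → ℕ → ℂ → ℂ) (E : ℕ → Set ℂ) (b : ℕ → ℂ → ℝ),
      (∀ n, 1 ≤ m n ∧ n ≤ m n) ∧ (∀ n j, Measurable (c n j)) ∧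
      (∀ n z, nm (m n) (fun j => c n j z) = 1) ∧ (∀ n, MeasurableSet (E n)) ∧
      (∀ n, Measurable (b n)) ∧ (∀ n z, 0 ≤ b n z) ∧ (∀ n, Integrable (fun z => l n z * b n z)) ∧
      Tendsto (fun n => ∫ z, l n z * b n z) atTop (𝓝 0) ∧
      (∀ n, ∀ z ∈ E n, nm (m n) (Am φ u v (m n) z fun j => c n j z) ≤ b n z) ∧
      (∀ x ∈ Xs, ∀ᵐ z, ∀ n, z ∈ E n → ∀ p : ℂ, ‖p‖ ≤ 1 →
        ‖∑ i ∈ Finset.range (m n), (p * c n i z) *
          (ct φ x (u i) z - ct φ (adjoint P x) (u i) z)‖ ≤ b n z) ∧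
      (∀ᶠ n in atTop, c₀ / 2 ≤ ∫ z, (E n).indicator (l n) z) := by
  classical
  obtain ⟨hRu, hRv, -⟩ := id hR
  have hPu : Summable (fun j => ‖pu P u j‖ ^ 2) := by
    refine Summable.of_nonneg_of_le (fun j => by positivity) (fun j => ?_) (hRu.mul_left (‖P‖ ^ 2))
    rw [← mul_pow]
    exact pow_le_pow_left₀ (norm_nonneg _) (P.le_opNorm _) 2
  have hPv : Summable (fun j => ‖pv P v j‖ ^ 2) := by
    refine Summable.of_nonneg_of_le (fun j => by positivity) (fun j => ?_)
      (hRv.mul_left (‖adjoint P‖ ^ 2))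
    rw [← mul_pow]
    exact pow_le_pow_left₀ (norm_nonneg _) ((adjoint P).le_opNorm _) 2
  obtain ⟨H1, H2, C₂, hC₂, H3⟩ := hH
  obtain ⟨-, aF, mF, lF⟩ := H1 S μ φ hN.meas u v hRu hRv
  obtain ⟨-, aG, mG, lG⟩ := H1 S μ φ hN.meas u (pv P v) hRu hPv
  obtain ⟨-, aG', mG', lG'⟩ := H1 S μ φ hN.meas (pu P u) v hPu hRv
  obtain ⟨-, aH', mH', lH'⟩ := H1 S μ φ hN.meas (pu P u) (pv P v) hPu hPv
  have hL' := id hL
  obtain ⟨L1, L2, L3, L4, L5, L6, L7⟩ := hL'
  -- a measurable set on which the relations hold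
  obtain ⟨D, hDm, hD, hDn⟩ : ∃ D : Set ℂ, MeasurableSet D ∧ (∀ z ∈ D, SysP φ u v P z) ∧
      ∀ᵐ z, z ∈ D := by
    refine ⟨(toMeasurable volume {z | ¬ SysP φ u v P z})ᶜ, (measurableSet_toMeasurable _ _).compl,
      ?_, ?_⟩
    · intro z hz
      by_contra h
      exact hz (subset_toMeasurable _ _ h)
    · have h1 : volume (toMeasurable volume {z | ¬ SysP φ u v P z}) = 0 := by
        rw [measure_toMeasurable]
        exact ae_iff.1 hsys
      exact compl_mem_ae_iff.2 h1
  set W : Set ℂ := D ∩ {z | w z ≤ 1 / 4} with hW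
  have hWm : MeasurableSet W := hDm.inter (measurableSet_le hwm measurable_const)
  -- approximate kernel vectors
  have hcA : ∀ n : ℕ, ∃ c : ℕ → ℂ → ℂ, (∀ j, Measurable (c j)) ∧
    ∀ z, SysP φ u v P z → w z ≤ 1 / 4 →
      Sq (fun j => c j z) ∧ n2 (fun j => c j z) = 1 ∧
      n2 (fun i => c i z - act (Fm φ u v z) (fun j => c j z) i) ≤
        4 * hs (Fm φ (pu P u) v z) * (w z + 1 / ((n : ℝ) + 1)) ∧
      n2 (fun i => c i z - act (Fm φ u (pv P v) z) (fun j => c j z) i) ≤
        4 * hs (Fm φ (pu P u) (pv P v) z) * (w z + 1 / ((n : ℝ) + 1)) := fun n =>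
    hPA (1 / ((n : ℝ) + 1)) (by positivity)
  choose cA hcAm hcA using hcA
  set cc : ℕ → ℕ → ℂ → ℂ := fun n j => W.indicator (cA n j) with hcc
  have hccm : ∀ n j, Measurable (cc n j) := fun n j => (hcAm n j).indicator hWm
  have hccW : ∀ n z, z ∈ W → (fun j => cc n j z) = fun j => cA n j z := by
    intro n z hz
    funext j
    exact indicator_of_mem hz _
  have hcc0 : ∀ n z, z ∉ W → (fun j => cc n j z) = fun _ => 0 := by
    intro n z hz
    funext j
    exact indicator_of_notMem hz _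
  have hSq : ∀ n z, Sq (fun j => cc n j z) := by
    intro n z
    by_cases hz : z ∈ W
    · rw [hccW n z hz]
      exact (hcA n z (hD z hz.1) hz.2).1
    · rw [hcc0 n z hz]
      exact Sq_zero
  have hn1 : ∀ n z, n2 (fun j => cc n j z) ≤ 1 := by
    intro n z
    by_cases hz : z ∈ W
    · rw [hccW n z hz]
      exact (hcA n z (hD z hz.1) hz.2).2.1.le
    · rw [hcc0 n z hz, n2_zero]
      exact zero_le_one
  -- the truncation errors
  set e' : ℕ → ℕ → ℂ → ℝ := fun n m z => n2 (fun j => cc n j z - tr m (fun j => cc n j z) j)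
    with he'
  have he'm : ∀ n m, Measurable (e' n m) := fun n m =>
    n2_meas (c := fun j z => cc n j z - tr m (fun j => cc n j z) j)
      fun j => (hccm n j).sub (tr_meas (hccm n) m j)
  have he'0 : ∀ n m z, 0 ≤ e' n m z := fun n m z => n2_nonneg _
  have he'1 : ∀ n m z, e' n m z ≤ 1 := fun n m z =>
    (((L5 _ (hSq n z)).2 m).2.2.1).trans (hn1 n z)
  set R : ℂ → ℝ := fun z => 1 + hs (Fm φ u v z) + hs (Fm φ u (pv P v) z) with hR'
  have hRm : Measurable R := (measurable_const.add mF).add mG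
  have hR1 : ∀ z, 1 ≤ R z := by
    intro z
    have h1 := hs_nonneg (Fm φ u v z)
    have h2 := hs_nonneg (Fm φ u (pv P v) z)
    show 1 ≤ 1 + hs (Fm φ u v z) + hs (Fm φ u (pv P v) z)
    linarith
  have hRi : IntegrableOn R (ball a ρ) := by
    have h1 : LocallyIntegrable R := ((locallyIntegrable_const (1:ℝ)).add lF).add lG
    exact (h1.integrableOn_isCompact (isCompact_closedBall a ρ)).mono_set ball_subset_closedBall
  have hB0 : ∀ n, 0 ≤ B n := fun n => (hl0 n a).1.trans (hl0 n a).2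
  have hRe : ∀ n m, IntegrableOn (fun z => R z * e' n m z) (ball a ρ) := by
    intro n m
    refine hRi.mono' (hRm.mul (he'm n m)).aestronglyMeasurable (Eventually.of_forall fun z => ?_)
    rw [norm_mul, Real.norm_eq_abs, Real.norm_eq_abs, abs_of_nonneg (he'0 n m z),
      abs_of_nonneg (zero_le_one.trans (hR1 z))]
    exact mul_le_of_le_one_right (zero_le_one.trans (hR1 z)) (he'1 n m z)
  have hmlim : ∀ n, Tendsto (fun m => ∫ z in ball a ρ, R z * e' n m z) atTop (𝓝 0) := by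
    intro n
    have h1 : Tendsto (fun m => ∫ z in ball a ρ, R z * e' n m z) atTop
        (𝓝 (∫ z in ball a ρ, (fun _ => (0:ℝ)) z)) := by
      refine tendsto_integral_of_dominated_convergence R
        (fun m => (hRm.mul (he'm n m)).aestronglyMeasurable) hRi (fun m => ?_) ?_
      · refine Eventually.of_forall fun z => ?_
        rw [norm_mul, Real.norm_eq_abs, Real.norm_eq_abs, abs_of_nonneg (he'0 n m z),
          abs_of_nonneg (zero_le_one.trans (hR1 z))]
        exact mul_le_of_le_one_right (zero_le_one.trans (hR1 z)) (he'1 n m z)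
      · refine Eventually.of_forall fun z => ?_
        have h2 := ((L5 _ (hSq n z)).1).const_mul (R z)
        rw [mul_zero] at h2
        exact h2
    rw [integral_zero] at h1
    exact h1
  have hm : ∀ n : ℕ, ∃ m : ℕ, (1 ≤ m ∧ n ≤ m) ∧ ∫ z in ball a ρ, R z * e' n m z ≤
      1 / (((n : ℝ) + 1) * (B n + 1)) := by
    intro n
    have e3 : (0 : ℝ) < 1 / (((n : ℝ) + 1) * (B n + 1)) := by
      have := hB0 n
      positivity
    have e4 := ((hmlim n).eventually (ge_mem_nhds e3)).and (eventually_ge_atTop (max 1 n))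
    obtain ⟨m, e5, e6⟩ := e4.exists
    exact ⟨m, ⟨(le_max_left _ _).trans e6, (le_max_right _ _).trans e6⟩, e5⟩
  choose m hm1 hm3 using hm
  set e : ℕ → ℂ → ℝ := fun n => e' n (m n) with he
  set q : ℕ → ℂ → ℝ := fun n z => nm (m n) (fun j => cc n j z) with hq
  have hqm : ∀ n, Measurable (q n) := fun n => nm_meas (hccm n) (m n)
  have hli : ∀ n, Integrable (l n) := fun n => bi (hlm n) (hl0 n) (hls n)
  -- integrals against the density
  have hRl : ∀ n, Integrable (fun z => l n z * (R z * e n z)) ∧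
      ∫ z, l n z * (R z * e n z) ≤ 1 / ((n : ℝ) + 1) := by
    intro n
    obtain ⟨h1, h2⟩ := bmul (hlm n) (hl0 n) (hls n) (hRe n (m n)) (hRm.mul (he'm n (m n)))
      (fun z => mul_nonneg (zero_le_one.trans (hR1 z)) (he'0 n (m n) z))
    refine ⟨h1, h2.trans ?_⟩
    have hBn := hB0 n
    calc B n * ∫ z in ball a ρ, R z * e' n (m n) z ≤ B n * (1 / (((n : ℝ) + 1) * (B n + 1))) :=
          mul_le_mul_of_nonneg_left (hm3 n) hBn
      _ ≤ 1 / ((n : ℝ) + 1) := by
          rw [mul_one_div, div_le_div_iff₀ (by positivity) (by positivity)]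
          nlinarith [Nat.cast_nonneg (α := ℝ) n]
  have hel : ∀ n, Integrable (fun z => l n z * e n z) ∧
      ∫ z, l n z * e n z ≤ 1 / ((n : ℝ) + 1) := by
    intro n
    have h0 : ∀ z, l n z * e n z ≤ l n z * (R z * e n z) := by
      intro z
      refine mul_le_mul_of_nonneg_left ?_ (hl0 n z).1
      exact le_mul_of_one_le_left (he'0 n (m n) z) (hR1 z)
    have h1 : Integrable (fun z => l n z * e n z) := by
      refine (hRl n).1.mono' ((hlm n).mul (he'm n (m n))).aestronglyMeasurable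
        (Eventually.of_forall fun z => ?_)
      rw [Real.norm_eq_abs, abs_of_nonneg (mul_nonneg (hl0 n z).1 (he'0 n (m n) z))]
      exact h0 z
    exact ⟨h1, (integral_mono h1 (hRl n).1 h0).trans (hRl n).2⟩
  have hwli : ∀ n, Integrable (fun z => w z * l n z) := by
    intro n
    refine (hli n).mono' (hwm.mul (hlm n)).aestronglyMeasurable (Eventually.of_forall fun z => ?_)
    rw [Real.norm_eq_abs, abs_of_nonneg (mul_nonneg (hw z).1 (hl0 n z).1)]
    exact mul_le_of_le_one_left (hl0 n z).1 (hw z).2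
  -- the constants
  set U₀ : ℝ := √(∑' j, ‖u j‖ ^ 2) with hU₀
  set V₀ : ℝ := √(∑' j, ‖v j‖ ^ 2) with hV₀
  set U₁ : ℝ := √(∑' j, ‖pu P u j‖ ^ 2) with hU₁
  set V₁ : ℝ := √(∑' j, ‖pv P v j‖ ^ 2) with hV₁
  have sU₀ : ∑' j, ‖u j‖ ^ 2 ≤ U₀ ^ 2 := by
    rw [hU₀, Real.sq_sqrt (tsum_nonneg fun _ => by positivity)]
  have sV₀ : ∑' j, ‖v j‖ ^ 2 ≤ V₀ ^ 2 := by
    rw [hV₀, Real.sq_sqrt (tsum_nonneg fun _ => by positivity)]
  have sU₁ : ∑' j, ‖pu P u j‖ ^ 2 ≤ U₁ ^ 2 := by
    rw [hU₁, Real.sq_sqrt (tsum_nonneg fun _ => by positivity)]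
  have sV₁ : ∑' j, ‖pv P v j‖ ^ 2 ≤ V₁ ^ 2 := by
    rw [hV₁, Real.sq_sqrt (tsum_nonneg fun _ => by positivity)]
  have pU₀ : 0 ≤ U₀ := Real.sqrt_nonneg _
  have pV₀ : 0 ≤ V₀ := Real.sqrt_nonneg _
  have pU₁ : 0 ≤ U₁ := Real.sqrt_nonneg _
  have pV₁ : 0 ≤ V₁ := Real.sqrt_nonneg _
  set M : ℝ := U₁ * V₀ + U₁ * V₁ + ∑ x ∈ Xs, (U₀ * ‖x‖ + U₁ * ‖x‖) with hM
  have pM : 0 ≤ M := add_nonneg (add_nonneg (mul_nonneg pU₁ pV₀) (mul_nonneg pU₁ pV₁))
    (Finset.sum_nonneg fun x _ => add_nonneg (mul_nonneg pU₀ (norm_nonneg _))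
      (mul_nonneg pU₁ (norm_nonneg _)))
  have pC₂ : 0 < C₂ := lt_of_lt_of_le one_pos hC₂
  set Λ : ℝ := 4 * (C₂ * C * M) / c₀ + 1 with hΛ
  have pCM : 0 ≤ C₂ * C * M := mul_nonneg (mul_nonneg pC₂.le hC.le) pM
  have pΛ : 0 < Λ := by
    have : 0 ≤ 4 * (C₂ * C * M) / c₀ := div_nonneg (by linarith) hc₀.le
    linarith
  have hΛM : C₂ * C * M / Λ ≤ c₀ / 4 := by
    rw [div_le_iff₀ pΛ, hΛ]
    have : c₀ / 4 * (4 * (C₂ * C * M) / c₀ + 1) = C₂ * C * M + c₀ / 4 := by
      field_simp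
    rw [this]
    linarith
  -- the good sets
  set g1 : ℂ → ℝ := fun z => hs (Fm φ (pu P u) v z) with hg1
  set g2 : ℂ → ℝ := fun z => hs (Fm φ (pu P u) (pv P v) z) with hg2
  set x1 : Lp ℂ 2 μ → ℂ → ℝ := fun x z => n2 (fun j => ct φ x (u j) z) with hx1
  set x2 : Lp ℂ 2 μ → ℂ → ℝ := fun x z => n2 (fun j => ct φ x (pu P u j) z) with hx2
  have mx1 : ∀ x, Measurable (x1 x) := fun x => (H2 S μ φ hN.meas u hRu x).2.1
  have mx2 : ∀ x, Measurable (x2 x) := fun x => (H2 S μ φ hN.meas (pu P u) hPu x).2.1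
  set E : ℕ → Set ℂ := fun n => W ∩ ({z | g1 z < Λ} ∩ ({z | g2 z < Λ} ∩
    ((⋂ x ∈ Xs, ({z | x1 x z < Λ} ∩ {z | x2 x z < Λ})) ∩ {z | 1 / 2 ≤ q n z}))) with hE
  have hEm : ∀ n, MeasurableSet (E n) := fun n => hWm.inter
    ((measurableSet_lt mG' measurable_const).inter ((measurableSet_lt mH' measurable_const).inter
      ((Finset.measurableSet_biInter Xs fun x _ => (measurableSet_lt (mx1 x) measurable_const).inter
        (measurableSet_lt (mx2 x) measurable_const)).inter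
        (measurableSet_le measurable_const (hqm n)))))
  -- the directions
  set c : ℕ → ℕ → ℂ → ℂ := fun n j z =>
    if z ∈ E n then tr (m n) (fun j => cc n j z) j / (q n z : ℂ) else if j = 0 then 1 else 0 with hc
  have hcE : ∀ n z, z ∈ E n → (fun j => c n j z) =
      fun j => tr (m n) (fun j => cc n j z) j / (q n z : ℂ) := by
    intro n z hz
    funext j
    exact if_pos hz
  have hcm : ∀ n j, Measurable (c n j) := by
    intro n j
    refine Measurable.ite (hEm n) ?_ measurable_const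
    exact (tr_meas (hccm n) (m n) j).div (Complex.measurable_ofReal.comp (hqm n))
  have hqE : ∀ n z, z ∈ E n → 1 / 2 ≤ q n z := fun n z hz => hz.2.2.2.2
  have hc1 : ∀ n z, nm (m n) (fun j => c n j z) = 1 := by
    intro n z
    by_cases hz : z ∈ E n
    · have hq0 : 0 < q n z := lt_of_lt_of_le (by norm_num) (hqE n z hz)
      have e1 : nm (m n) (fun j => c n j z) =
          nm (m n) (fun j => ((q n z : ℝ) : ℂ)⁻¹ * cc n j z) := by
        refine nm_congr fun j hj => ?_
        have e2 : c n j z = tr (m n) (fun j => cc n j z) j / (q n z : ℂ) := congrFun (hcE n z hz) j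
        rw [e2]
        unfold tr
        rw [if_pos hj, div_eq_mul_inv, mul_comm]
      rw [e1, nm_mul, norm_inv, Complex.norm_real, Real.norm_eq_abs, abs_of_pos hq0]
      exact inv_mul_cancel₀ hq0.ne'
    · have e1 : ∀ j, c n j z = if j = 0 then 1 else 0 := fun j => if_neg hz
      unfold nm
      simp only [e1]
      rw [Finset.sum_eq_single 0]
      · simp
      · intro j _ hj
        simp [hj]
      · intro h
        exact absurd (Finset.mem_range.2 (hm1 n).1) h
  set K₁ : ℝ := 16 * Λ ^ 2 + 8 * Λ + 2 with hK₁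
  have pK₁ : 0 < K₁ := by positivity
  set b : ℕ → ℂ → ℝ := fun n z => K₁ * ((w z + 1 / ((n : ℝ) + 1)) + R z * e n z) with hb
  have hb0 : ∀ n z, 0 ≤ b n z := by
    intro n z
    have h1 := (hw z).1
    have h2 : (0:ℝ) ≤ 1 / ((n : ℝ) + 1) := by positivity
    have h3 := mul_nonneg (zero_le_one.trans (hR1 z)) (he'0 n (m n) z)
    exact mul_nonneg pK₁.le (by
      show 0 ≤ w z + 1 / ((n : ℝ) + 1) + R z * e' n (m n) z
      linarith)
  have hbm : ∀ n, Measurable (b n) := fun n =>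
    ((hwm.add measurable_const).add (hRm.mul (he'm n (m n)))).const_mul K₁
  have hbi : ∀ n, Integrable (fun z => l n z * b n z) ∧ ∫ z, l n z * b n z ≤
      K₁ * ((∫ z, w z * l n z) + 1 / ((n : ℝ) + 1) * C + 1 / ((n : ℝ) + 1)) := by
    intro n
    have e1 : ∀ z, l n z * b n z = K₁ * (w z * l n z + 1 / ((n : ℝ) + 1) * l n z +
        l n z * (R z * e n z)) := by
      intro z
      show l n z * (K₁ * ((w z + 1 / ((n : ℝ) + 1)) + R z * e n z)) = _
      ring
    have i1 := (hwli n).add ((hli n).const_mul (1 / ((n : ℝ) + 1)))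
    have i2 := (hRl n).1
    constructor
    · simp_rw [e1]
      exact (i1.add i2).const_mul K₁
    · simp_rw [e1]
      rw [integral_const_mul]
      refine mul_le_mul_of_nonneg_left ?_ pK₁.le
      have i3 : ∫ z, (w z * l n z + 1 / ((n : ℝ) + 1) * l n z + l n z * (R z * e n z)) =
          (∫ z, (w z * l n z + 1 / ((n : ℝ) + 1) * l n z)) + ∫ z, l n z * (R z * e n z) :=
        integral_add i1 i2
      have i4 : ∫ z, (w z * l n z + 1 / ((n : ℝ) + 1) * l n z) =
          (∫ z, w z * l n z) + ∫ z, 1 / ((n : ℝ) + 1) * l n z :=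
        integral_add (hwli n) ((hli n).const_mul _)
      rw [i3, i4, integral_const_mul]
      have i5 : 1 / ((n : ℝ) + 1) * ∫ z, l n z ≤ 1 / ((n : ℝ) + 1) * C :=
        mul_le_mul_of_nonneg_left (hlC n) (by positivity)
      have i6 := (hRl n).2
      linarith
  have hone := tendsto_one_div_add_atTop_nhds_zero_nat (𝕜 := ℝ)
  refine ⟨m, c, E, b, hm1, hcm, hc1, hEm, hbm, hb0, fun n => (hbi n).1, ?_, ?_, ?_, ?_⟩
  · -- the integrals tend to zero
    have e1 : Tendsto (fun n : ℕ => K₁ * ((∫ z, w z * l n z) + 1 / ((n : ℝ) + 1) * C +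
        1 / ((n : ℝ) + 1))) atTop (𝓝 0) := by
      have := ((hwl.add (hone.mul_const C)).add hone).const_mul K₁
      simpa using this
    refine squeeze_zero (fun n => ?_) (fun n => (hbi n).2) e1
    exact integral_nonneg fun z => mul_nonneg (hl0 n z).1 (hb0 n z)
  · -- the norm of `1 - F`
    intro n z hz
    have hzW : z ∈ W := hz.1
    have h1 := hcA n z (hD z hzW.1) hzW.2
    rw [hcE n z hz]
    have h2 := am_bound hL φ u v (m n) z (hD z hzW.1).hF (hSq n z) (hqE n z hz)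
    refine h2.trans ?_
    have h3 : n2 (fun i => cc n i z - act (Fm φ u v z) (fun j => cc n j z) i) ≤
        4 * Λ * (w z + 1 / ((n : ℝ) + 1)) := by
      have h4 := hccW n z hzW
      have h5 : n2 (fun i => cc n i z - act (Fm φ u v z) (fun j => cc n j z) i) =
          n2 (fun i => cA n i z - act (Fm φ u v z) (fun j => cA n j z) i) := by
        rw [h4]
        congr 1
        funext i
        rw [congrFun h4 i]
      rw [h5]
      refine h1.2.2.1.trans ?_
      have h6 : hs (Fm φ (pu P u) v z) ≤ Λ := (le_of_lt hz.2.1)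
      have h7 : 0 ≤ w z + 1 / ((n : ℝ) + 1) := add_nonneg (hw z).1 (by positivity)
      exact mul_le_mul_of_nonneg_right (by linarith) h7
    have h8 : (1 + hs (Fm φ u v z)) * e n z ≤ R z * e n z := by
      refine mul_le_mul_of_nonneg_right ?_ (he'0 n (m n) z)
      have := hs_nonneg (Fm φ u (pv P v) z)
      show 1 + hs (Fm φ u v z) ≤ 1 + hs (Fm φ u v z) + hs (Fm φ u (pv P v) z)
      linarith
    have h9 : 0 ≤ w z + 1 / ((n : ℝ) + 1) := add_nonneg (hw z).1 (by positivity)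
    have h10 : 0 ≤ R z * e n z := mul_nonneg (zero_le_one.trans (hR1 z)) (he'0 n (m n) z)
    show 2 * (n2 (fun i => cc n i z - act (Fm φ u v z) (fun j => cc n j z) i) +
        (1 + hs (Fm φ u v z)) * e n z) ≤ K₁ * ((w z + 1 / ((n : ℝ) + 1)) + R z * e n z)
    have h11 : 8 * Λ * (w z + 1 / ((n : ℝ) + 1)) ≤ K₁ * (w z + 1 / ((n : ℝ) + 1)) :=
      mul_le_mul_of_nonneg_right (by rw [hK₁]; nlinarith [sq_nonneg Λ]) h9
    have h12 : 2 * (R z * e n z) ≤ K₁ * (R z * e n z) :=
      mul_le_mul_of_nonneg_right (by rw [hK₁]; nlinarith [sq_nonneg Λ]) h10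
    linarith
  · -- the pairing
    intro x hx
    have a1 := (hS S μ φ N K hN u v hR P hP hPT).2.2 x
    have a2 := (H2 S μ φ hN.meas u hRu x).1
    have a3 := (H2 S μ φ hN.meas (pu P u) hPu x).1
    filter_upwards [a1, a2, a3] with z a1 a2 a3
    intro n hz p hp
    have hzW : z ∈ W := hz.1
    have h1 := hcA n z (hD z hzW.1) hzW.2
    have hΛx : x1 x z < Λ ∧ x2 x z < Λ := by
      have := hz.2.2.2.1
      rw [mem_iInter₂] at this
      exact this x hx
    have h2 := pair_bound hL φ u v P x (m n) z (hD z hzW.1).hF (hD z hzW.1).hG (hSq n z)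
      (hqE n z hz) a2.1 a3.1 hΛx.1.le hΛx.2.le a1 p hp
    have e0 : ∑ i ∈ Finset.range (m n), (p * c n i z) *
        (ct φ x (u i) z - ct φ (adjoint P x) (u i) z) =
        ∑ i ∈ Finset.range (m n), (p * (tr (m n) (fun j => cc n j z) i /
          (nm (m n) (fun j => cc n j z) : ℂ))) *
        (ct φ x (u i) z - ct φ (adjoint P x) (u i) z) := by
      refine Finset.sum_congr rfl fun i _ => ?_
      have : c n i z = tr (m n) (fun j => cc n j z) i / (q n z : ℂ) := congrFun (hcE n z hz) i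
      rw [this]
    rw [e0]
    refine h2.trans ?_
    have h4 := hccW n z hzW
    have h7 : 0 ≤ w z + 1 / ((n : ℝ) + 1) := add_nonneg (hw z).1 (by positivity)
    have h3 : n2 (fun i => cc n i z - act (Fm φ u v z) (fun j => cc n j z) i) ≤
        4 * Λ * (w z + 1 / ((n : ℝ) + 1)) := by
      have h5 : n2 (fun i => cc n i z - act (Fm φ u v z) (fun j => cc n j z) i) =
          n2 (fun i => cA n i z - act (Fm φ u v z) (fun j => cA n j z) i) := by
        rw [h4]
        congr 1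
        funext i
        rw [congrFun h4 i]
      rw [h5]
      refine h1.2.2.1.trans ?_
      have h6 : hs (Fm φ (pu P u) v z) ≤ Λ := (le_of_lt hz.2.1)
      exact mul_le_mul_of_nonneg_right (by linarith) h7
    have h3' : n2 (fun i => cc n i z - act (Fm φ u (pv P v) z) (fun j => cc n j z) i) ≤
        4 * Λ * (w z + 1 / ((n : ℝ) + 1)) := by
      have h5 : n2 (fun i => cc n i z - act (Fm φ u (pv P v) z) (fun j => cc n j z) i) =
          n2 (fun i => cA n i z - act (Fm φ u (pv P v) z) (fun j => cA n j z) i) := by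
        rw [h4]
        congr 1
        funext i
        rw [congrFun h4 i]
      rw [h5]
      refine h1.2.2.2.trans ?_
      have h6 : hs (Fm φ (pu P u) (pv P v) z) ≤ Λ := (le_of_lt hz.2.2.1)
      exact mul_le_mul_of_nonneg_right (by linarith) h7
    have hF0 := hs_nonneg (Fm φ u v z)
    have hG0 := hs_nonneg (Fm φ u (pv P v) z)
    have he0 := he'0 n (m n) z
    show 2 * (Λ * (n2 (fun i => cc n i z - act (Fm φ u (pv P v) z) (fun j => cc n j z) i) +
        (1 + hs (Fm φ u (pv P v) z)) * e n z) +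
        Λ * (n2 (fun i => cc n i z - act (Fm φ u v z) (fun j => cc n j z) i) +
        (1 + hs (Fm φ u v z)) * e n z)) ≤ K₁ * ((w z + 1 / ((n : ℝ) + 1)) + R z * e n z)
    have h8 : (1 + hs (Fm φ u v z)) * e n z ≤ R z * e n z := by
      refine mul_le_mul_of_nonneg_right ?_ he0
      show 1 + hs (Fm φ u v z) ≤ 1 + hs (Fm φ u v z) + hs (Fm φ u (pv P v) z)
      linarith
    have h8' : (1 + hs (Fm φ u (pv P v) z)) * e n z ≤ R z * e n z := by
      refine mul_le_mul_of_nonneg_right ?_ he0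
      show 1 + hs (Fm φ u (pv P v) z) ≤ 1 + hs (Fm φ u v z) + hs (Fm φ u (pv P v) z)
      linarith
    have h10 : 0 ≤ R z * e n z := mul_nonneg (zero_le_one.trans (hR1 z)) he0
    have h13 := mul_le_mul_of_nonneg_left (add_le_add h3' h8') pΛ.le
    have h14 := mul_le_mul_of_nonneg_left (add_le_add h3 h8) pΛ.le
    have h11 : 16 * Λ ^ 2 * (w z + 1 / ((n : ℝ) + 1)) ≤ K₁ * (w z + 1 / ((n : ℝ) + 1)) :=
      mul_le_mul_of_nonneg_right (by rw [hK₁]; linarith) h7
    have h12 : 4 * Λ * (R z * e n z) ≤ K₁ * (R z * e n z) :=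
      mul_le_mul_of_nonneg_right (by rw [hK₁]; nlinarith [sq_nonneg Λ]) h10
    nlinarith
  · -- the mass of the good set
    have key : ∀ n, c₀ ≤ (∫ z, (E n).indicator (l n) z) + 4 * (∫ z, w z * l n z) +
        (C₂ * C * M / Λ + (2 + 2 * (Xs.card : ℝ)) * C₂ * δ n) + 2 * (1 / ((n : ℝ) + 1)) := by
      intro n
      have w1 := H3 (l n) C (δ n) (hli n) (fun z => (hl0 n z).1) hC.le (hδ0 n) (hWT n) S μ φ hN.meas
      have k1 : ∫ z in {z | Λ ≤ g1 z}, l n z ≤ C₂ * (C * (U₁ * V₀) / Λ + δ n) :=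
        (w1 (pu P u) v 0 U₁ V₀ pU₁ pV₀ hPu hRv sU₁ sV₀ Λ pΛ).1
      have k2 : ∫ z in {z | Λ ≤ g2 z}, l n z ≤ C₂ * (C * (U₁ * V₁) / Λ + δ n) :=
        (w1 (pu P u) (pv P v) 0 U₁ V₁ pU₁ pV₁ hPu hPv sU₁ sV₁ Λ pΛ).1
      have k3 : ∀ x, ∫ z in {z | Λ ≤ x1 x z}, l n z ≤ C₂ * (C * (U₀ * ‖x‖) / Λ + δ n) := fun x =>
        (w1 u v x U₀ V₀ pU₀ pV₀ hRu hRv sU₀ sV₀ Λ pΛ).2
      have k4 : ∀ x, ∫ z in {z | Λ ≤ x2 x z}, l n z ≤ C₂ * (C * (U₁ * ‖x‖) / Λ + δ n) := fun x =>
        (w1 (pu P u) v x U₁ V₀ pU₁ pV₀ hPu hRv sU₁ sV₀ Λ pΛ).2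
      have s1 : MeasurableSet {z | Λ ≤ g1 z} := measurableSet_le measurable_const mG'
      have s2 : MeasurableSet {z | Λ ≤ g2 z} := measurableSet_le measurable_const mH'
      have s3 : ∀ x, MeasurableSet {z | Λ ≤ x1 x z} := fun x =>
        measurableSet_le measurable_const (mx1 x)
      have s4 : ∀ x, MeasurableSet {z | Λ ≤ x2 x z} := fun x =>
        measurableSet_le measurable_const (mx2 x)
      have hpt : ∀ᵐ z, l n z ≤ (E n).indicator (l n) z + 4 * (w z * l n z) +
          {z | Λ ≤ g1 z}.indicator (l n) z + {z | Λ ≤ g2 z}.indicator (l n) z +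
          (∑ x ∈ Xs, ({z | Λ ≤ x1 x z}.indicator (l n) z + {z | Λ ≤ x2 x z}.indicator (l n) z)) +
          2 * (l n z * e n z) := by
        filter_upwards [hDn] with z hz
        have hl := (hl0 n z).1
        have hi : ∀ A : Set ℂ, 0 ≤ A.indicator (l n) z := fun A =>
          indicator_nonneg (fun z _ => (hl0 n z).1) z
        refine union_bound Xs (fun x => {z | Λ ≤ x1 x z}.indicator (l n) z)
          (fun x => {z | Λ ≤ x2 x z}.indicator (l n) z) (fun x => hi _) (fun x => hi _) (hi _)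
          (by have := mul_nonneg (hw z).1 hl; linarith) (hi _) (hi _)
          (by have := mul_nonneg hl (he'0 n (m n) z); show 0 ≤ 2 * (l n z * e' n (m n) z); linarith) ?_
        by_cases t1 : w z ≤ 1 / 4
        swap
        · right; left
          push Not at t1
          nlinarith
        by_cases t2 : g1 z < Λ
        swap
        · right; right; left
          rw [indicator_of_mem (by exact not_lt.1 t2)]
        by_cases t3 : g2 z < Λ
        swap
        · right; right; right; left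
          rw [indicator_of_mem (by exact not_lt.1 t3)]
        by_cases t4 : ∀ x ∈ Xs, x1 x z < Λ ∧ x2 x z < Λ
        swap
        · right; right; right; right; left
          push Not at t4
          obtain ⟨x, hx, hx'⟩ := t4
          refine ⟨x, hx, ?_⟩
          by_cases t5 : x1 x z < Λ
          · right
            rw [indicator_of_mem (by exact hx' t5)]
          · left
            rw [indicator_of_mem (by exact not_lt.1 t5)]
        by_cases t5 : 1 / 2 ≤ q n z
        · left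
          have : z ∈ E n := ⟨⟨hz, t1⟩, t2, t3, by
            rw [mem_iInter₂]
            exact t4, t5⟩
          rw [indicator_of_mem this]
        · right; right; right; right; right
          push Not at t5
          have hzW : z ∈ W := ⟨hz, t1⟩
          have h1 := (hcA n z (hD z hzW.1) hzW.2).2.1
          rw [← hccW n z hzW] at h1
          have h2 := L5 _ (hSq n z)
          have h3 : n2 (fun j => cc n j z) ≤ n2 (tr (m n) fun j => cc n j z) + e n z := by
            have h4 := (L1 _ _ (h2.2 (m n)).1 (L1 _ _ (hSq n z) (h2.2 (m n)).1).2.1).2.2.1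
            have h5 : (fun j => tr (m n) (fun j => cc n j z) j +
                (cc n j z - tr (m n) (fun j => cc n j z) j)) = fun j => cc n j z := by
              funext j
              ring
            rw [h5] at h4
            exact h4
          rw [(h2.2 (m n)).2.2.2, h1] at h3
          have h6 : 1 / 2 ≤ e n z := by
            have : nm (m n) (fun j => cc n j z) = q n z := rfl
            linarith
          nlinarith
      have j1 : Integrable (fun z => (E n).indicator (l n) z) := (hli n).indicator (hEm n)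
      have j2 : Integrable (fun z => 4 * (w z * l n z)) := (hwli n).const_mul 4
      have j3 : Integrable (fun z => {z | Λ ≤ g1 z}.indicator (l n) z) := (hli n).indicator s1
      have j4 : Integrable (fun z => {z | Λ ≤ g2 z}.indicator (l n) z) := (hli n).indicator s2
      have j5a : ∀ x ∈ Xs, Integrable (fun z => {z | Λ ≤ x1 x z}.indicator (l n) z +
          {z | Λ ≤ x2 x z}.indicator (l n) z) := fun x _ =>
        ((hli n).indicator (s3 x)).add ((hli n).indicator (s4 x))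
      have j5 : Integrable (fun z => ∑ x ∈ Xs, ({z | Λ ≤ x1 x z}.indicator (l n) z +
          {z | Λ ≤ x2 x z}.indicator (l n) z)) := integrable_finsetSum _ j5a
      have j6 : Integrable (fun z => 2 * (l n z * e n z)) := (hel n).1.const_mul 2
      have i12 := j1.add j2
      have i123 := i12.add j3
      have i1234 := i123.add j4
      have i12345 := i1234.add j5
      have iall := i12345.add j6
      have hint := integral_mono_ae (hli n) iall hpt
      have r1 : ∫ z, ((E n).indicator (l n) z + 4 * (w z * l n z) +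
          {z | Λ ≤ g1 z}.indicator (l n) z + {z | Λ ≤ g2 z}.indicator (l n) z +
          (∑ x ∈ Xs, ({z | Λ ≤ x1 x z}.indicator (l n) z + {z | Λ ≤ x2 x z}.indicator (l n) z)) +
          2 * (l n z * e n z)) =
          (∫ z, (E n).indicator (l n) z) + (∫ z, 4 * (w z * l n z)) +
          (∫ z, {z | Λ ≤ g1 z}.indicator (l n) z) + (∫ z, {z | Λ ≤ g2 z}.indicator (l n) z) +
          (∫ z, ∑ x ∈ Xs, ({z | Λ ≤ x1 x z}.indicator (l n) z +
            {z | Λ ≤ x2 x z}.indicator (l n) z)) +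
          ∫ z, 2 * (l n z * e n z) := by
        exact int6 j1 j2 j3 j4 j5 j6
      have hint' : ∫ z, l n z ≤ ∫ z, ((E n).indicator (l n) z + 4 * (w z * l n z) +
          {z | Λ ≤ g1 z}.indicator (l n) z + {z | Λ ≤ g2 z}.indicator (l n) z +
          (∑ x ∈ Xs, ({z | Λ ≤ x1 x z}.indicator (l n) z + {z | Λ ≤ x2 x z}.indicator (l n) z)) +
          2 * (l n z * e n z)) := hint
      rw [r1] at hint'
      rw [integral_const_mul, integral_const_mul, integral_indicator s1, integral_indicator s2,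
        integral_finsetSum _ j5a] at hint'
      have r2 : ∑ x ∈ Xs, ∫ z, ({z | Λ ≤ x1 x z}.indicator (l n) z +
          {z | Λ ≤ x2 x z}.indicator (l n) z) ≤
          ∑ x ∈ Xs, (C₂ * (C * (U₀ * ‖x‖) / Λ + δ n) + C₂ * (C * (U₁ * ‖x‖) / Λ + δ n)) := by
        refine Finset.sum_le_sum fun x _ => ?_
        rw [integral_add ((hli n).indicator (s3 x)) ((hli n).indicator (s4 x)),
          integral_indicator (s3 x), integral_indicator (s4 x)]
        exact add_le_add (k3 x) (k4 x)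
      have r3 : ∑ x ∈ Xs, (C₂ * (C * (U₀ * ‖x‖) / Λ + δ n) + C₂ * (C * (U₁ * ‖x‖) / Λ + δ n)) =
          C₂ * C / Λ * (∑ x ∈ Xs, (U₀ * ‖x‖ + U₁ * ‖x‖)) + 2 * (Xs.card : ℝ) * C₂ * δ n := by
        have : ∀ x : Lp ℂ 2 μ, C₂ * (C * (U₀ * ‖x‖) / Λ + δ n) + C₂ * (C * (U₁ * ‖x‖) / Λ + δ n) =
            C₂ * C / Λ * (U₀ * ‖x‖ + U₁ * ‖x‖) + 2 * C₂ * δ n := by
          intro x
          ring
        simp only [this]
        rw [Finset.sum_add_distrib, ← Finset.mul_sum, Finset.sum_const, nsmul_eq_mul]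
        ring
      rw [r3] at r2
      have r4 : C₂ * (C * (U₁ * V₀) / Λ + δ n) + C₂ * (C * (U₁ * V₁) / Λ + δ n) +
          (C₂ * C / Λ * (∑ x ∈ Xs, (U₀ * ‖x‖ + U₁ * ‖x‖)) + 2 * (Xs.card : ℝ) * C₂ * δ n) =
          C₂ * C * M / Λ + (2 + 2 * (Xs.card : ℝ)) * C₂ * δ n := by
        rw [hM]
        ring
      have r5 := (hel n).2
      have r6 := hlc n
      linarith
    have hlim : Tendsto (fun n : ℕ => 4 * (∫ z, w z * l n z) +
        (2 + 2 * (Xs.card : ℝ)) * C₂ * δ n + 2 * (1 / ((n : ℝ) + 1))) atTop (𝓝 0) := by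
      have := ((hwl.const_mul 4).add (hδ.const_mul ((2 + 2 * (Xs.card : ℝ)) * C₂))).add
        (hone.const_mul 2)
      simpa using this
    filter_upwards [hlim.eventually (ge_mem_nhds (by positivity : (0:ℝ) < c₀ / 4))] with n hn
    have := key n
    linarith

end Pool.Agent.Q210.TR
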