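import Pool.Agent.Q286.TR.Stm

/-!
# Regrouping a finite double sum
-/

set_option autoImplicit false

namespace Pool.Agent.Q210.TR

open Complex Filter Topology NumberField IsDedekindDomain
open Pool.Agent.Q286.TR

open scoped Classical in
/-- JOB REG -/
theorem t_REG : S_REG := by
  intro ι D q β hq hfin M G
  have hS : {x : ι × ℕ | 1 ≤ x.2 ∧ q x.1 ^ x.2 ≤ M}.Finite := by
    refine ((hfin M).prod (Set.finite_Iic M)).subset ?_
    rintro ⟨i, k⟩ ⟨hk, hM⟩
    have h1 : q i ≤ q i ^ k := Nat.le_self_pow (by omega) _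
    have h2 : k < q i ^ k := Nat.lt_pow_self (lt_of_lt_of_le one_lt_two (hq i))
    exact ⟨h1.trans hM, (h2.trans_le hM).le⟩
  have hP : ∀ n ∈ Finset.Icc 1 M,
      Pr q n = ((hS.toFinset.filter fun x => q x.1 ^ x.2 = n : Finset (ι × ℕ)) : Set (ι × ℕ)) := by
    intro n hn
    rw [Finset.mem_Icc] at hn
    ext x
    rw [Finset.mem_coe, Finset.mem_filter, Set.Finite.mem_toFinset]
    constructor
    · rintro ⟨h1, h2⟩
      exact ⟨⟨h1, h2.trans_le hn.2⟩, h2⟩
    · rintro ⟨⟨h1, -⟩, h2⟩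
      exact ⟨h1, h2⟩
  rw [finsum_mem_eq_finite_toFinset_sum _ hS]
  rw [← Finset.sum_fiberwise_of_maps_to (s := hS.toFinset) (t := Finset.Icc 1 M)
    (g := fun x => q x.1 ^ x.2) (fun x hx => by
      rw [Set.Finite.mem_toFinset] at hx
      rw [Finset.mem_Icc]
      exact ⟨Nat.one_le_iff_ne_zero.2 (pow_ne_zero _ (by have := hq x.1; omega)), hx.2⟩)]
  refine Finset.sum_congr rfl fun n hn => ?_
  unfold Th
  rw [hP n hn, finsum_mem_coe_finset, Finset.sum_mul]
  refine Finset.sum_congr rfl fun x hx => ?_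
  rw [(Finset.mem_filter.1 hx).2]

end Pool.Agent.Q210.TR
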